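import Pool.Agent.Lib.MP_10e784_agHE.Defs
import Pool.Agent.Lib.MP_10e784_agH.EA
import Pool.Agent.Lib.MP_10e784_agH.EC

/-!
# Two quadratic forms: everywhere locally soluble
-/

set_option autoImplicit false

namespace HE

open Polynomial HY

theorem pol_ext2 {p : ℕ} (q : Fin 2 → Fin 3 → ℤ) : pol (cq p (ext3 q) 2) = 1 := by
  unfold pol
  rw [Fin.sum_univ_three]
  simp [cq, ext3]

theorem sol_p2 {p : ℕ} [Fact p.Prime] (hp : p ≠ 2) {m : ℕ} (q : Fin 2 → Fin 3 → ℤ) (f : Fin (m + 1) → ℤ) (x : ZMod p)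
    (h0 : (pol (cq p (ext3 q) 0) * pol (cq p (ext3 q) 1) * pol (cq p (ext3 q) 2) * pol (cf p f)).eval x ≠ 0)
    (hs : IsSquare ((pol (cq p (ext3 q) 0) * pol (cq p (ext3 q) 1) * pol (cq p (ext3 q) 2) * pol (cf p f)).eval x)) :
    SolK2 ℚ_[p] q f := by
  obtain ⟨x₀, hx₀⟩ := ZMod.intCast_surjective x
  obtain ⟨V, hV⟩ : ∃ V : ℤ, V = qe (q 0) x₀ 1 * qe (q 1) x₀ 1 * fe f x₀ 1 := ⟨_, rfl⟩
  have hq : ∀ (R : Type) [CommRing R] (i : Fin 2), qe (fun j => ((q i j : ℤ) : R)) ((x₀ : ℤ) : R) 1 =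
      ((qe (q i) x₀ 1 : ℤ) : R) := by
    intro R _ i
    have h := qe_map (Int.castRingHom R) (q i) x₀ 1
    rw [map_one] at h
    exact h
  have hf : ∀ (R : Type) [CommRing R], fe (fun j => ((f j : ℤ) : R)) ((x₀ : ℤ) : R) 1 = ((fe f x₀ 1 : ℤ) : R) := by
    intro R _
    have h := fe_map (Int.castRingHom R) f x₀ 1
    rw [map_one] at h
    exact h
  have hVR : ∀ (R : Type) [CommRing R], qe (fun j => ((q 0 j : ℤ) : R)) ((x₀ : ℤ) : R) 1 *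
      qe (fun j => ((q 1 j : ℤ) : R)) ((x₀ : ℤ) : R) 1 *
      fe (fun j => ((f j : ℤ) : R)) ((x₀ : ℤ) : R) 1 = ((V : ℤ) : R) := by
    intro R _
    rw [hq, hq, hf, hV]
    push_cast
    ring
  have hev : (pol (cq p (ext3 q) 0) * pol (cq p (ext3 q) 1) * pol (cq p (ext3 q) 2) * pol (cf p f)).eval x =
      ((V : ℤ) : ZMod p) := by
    rw [pol_ext2, mul_one, eval_mul, eval_mul, pol_eval3, pol_eval3, pol_eval, ← hx₀]
    exact hVR (ZMod p)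
  rw [hev] at h0 hs
  obtain ⟨t, ht⟩ := hs
  have ht0 : t ≠ 0 := by
    rintro rfl
    apply h0
    rw [ht, mul_zero]
  have h1 : PadicInt.toZMod ((V : ℤ) : ℤ_[p]) = t ^ 2 := by
    rw [map_intCast, ht, sq]
  obtain ⟨s, hs, -⟩ := BLS.sq_unit p hp ((V : ℤ) : ℤ_[p]) t ht0 h1
  refine ⟨((x₀ : ℤ) : ℚ_[p]), 1, (s : ℚ_[p]), Or.inr one_ne_zero, ?_⟩
  rw [hVR ℚ_[p]]
  have h2 : (((V : ℤ) : ℤ_[p]) : ℚ_[p]) = ((s ^ 2 : ℤ_[p]) : ℚ_[p]) := by rw [hs]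
  rw [PadicInt.coe_intCast, PadicInt.coe_pow] at h2
  exact h2.symm

theorem sol_lead2 (K : Type) [Field K] {m : ℕ} (q : Fin 2 → Fin 3 → ℤ) (f : Fin (m + 1) → ℤ)
    (h : IsSquare (((q 0 2 * q 1 2 * f (Fin.last m) : ℤ)) : K)) : SolK2 K q f := by
  obtain ⟨y, hy⟩ := h
  refine ⟨1, 0, y, Or.inl one_ne_zero, ?_⟩
  have hq : ∀ i : Fin 2, qe (fun j => ((q i j : ℤ) : K)) 1 0 = ((q i 2 : ℤ) : K) := by
    intro i
    unfold qe
    ring
  have hf : fe (fun i => ((f i : ℤ) : K)) 1 0 = ((f (Fin.last m) : ℤ) : K) := by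
    unfold fe
    rw [Finset.sum_eq_single (Fin.last m)]
    · rw [Fin.val_last, one_pow, Nat.sub_self, pow_zero, mul_one, mul_one]
    · intro i _ hi
      have h3 : (i : ℕ) < m := Fin.val_lt_last hi
      rw [zero_pow (by omega), mul_zero]
    · intro h
      exact absurd (Finset.mem_univ _) h
  rw [hq, hq, hf, sq, ← hy]
  push_cast
  ring

private theorem A_deg {R : Type*} [CommRing R] {m : ℕ} (q : Fin 3 → Fin 3 → R) (f : Fin (m + 1) → R) :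
    (pol (q 0) * pol (q 1) * pol (q 2) * pol f).natDegree ≤ m + 6 := by
  have h0 : (pol (q 0)).natDegree ≤ 2 := pol_deg (q 0)
  have h1 : (pol (q 1)).natDegree ≤ 2 := pol_deg (q 1)
  have h2 : (pol (q 2)).natDegree ≤ 2 := pol_deg (q 2)
  have h3 := pol_deg f
  have a1 : (pol (q 0) * pol (q 1)).natDegree ≤ 2 + 2 :=
    Polynomial.natDegree_mul_le.trans (add_le_add h0 h1)
  have a2 : (pol (q 0) * pol (q 1) * pol (q 2)).natDegree ≤ 2 + 2 + 2 :=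
    Polynomial.natDegree_mul_le.trans (add_le_add a1 h2)
  have a3 : (pol (q 0) * pol (q 1) * pol (q 2) * pol f).natDegree ≤ 2 + 2 + 2 + m :=
    Polynomial.natDegree_mul_le.trans (add_le_add a2 h3)
  omega

private theorem A_dvd {M a b d : ℤ} (ha : M ∣ a - 1) (hb : M ∣ b - 1) (hd : M ∣ d - 1) :
    M ∣ a * b * d - 1 := by
  obtain ⟨x, hx⟩ := ha
  obtain ⟨y, hy⟩ := hb
  obtain ⟨w, hw⟩ := hd
  refine ⟨x * b * d + y * d + w, ?_⟩
  linear_combination (b * d) * hx + d * hy + hw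

theorem els2 (m : ℕ) : ∃ P1 : ℕ, 4 ≤ P1 ∧ ∀ P0 : ℕ, P1 ≤ P0 → ∀ (H H' : ℕ) (q : Fin 2 × Fin 3 → ℤ)
    (f : Fin (m + 1) → ℤ), Tq2 (8 * P0.factorial) H q → Tf (8 * P0.factorial) H' f →
    (∀ (p : ℕ) (_ : Fact p.Prime), P0 < p → ¬ BadF p (cq p (ext3 fun i j => q (i, j))) (cf p f)) →
    SolK2 ℝ (fun i j => q (i, j)) f ∧ ∀ (p : ℕ) [Fact p.Prime], SolK2 ℚ_[p] (fun i j => q (i, j)) f := by
  obtain ⟨P1, hP1⟩ := many_x (m + 6)
  refine ⟨max P1 4, le_max_right _ _, fun P0 h0 H H' q f hq hf hB => ?_⟩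
  have hpos : 0 < q (0, 2) * q (1, 2) * f (Fin.last m) :=
    mul_pos (mul_pos (hq.2 0).1 (hq.2 1).1) hf.2.1
  have hdvd : ((8 * P0.factorial : ℕ) : ℤ) ∣ q (0, 2) * q (1, 2) * f (Fin.last m) - 1 :=
    A_dvd (hq.2 0).2 (hq.2 1).2 hf.2.2
  refine ⟨sol_lead2 ℝ (fun i j => q (i, j)) f (BLS.sq_real _ hpos), fun p hp => ?_⟩
  have hP1' : P1 ≤ P0 := (le_max_left _ _).trans h0
  rcases lt_or_ge P0 p with h | h
  · have h2 : p ≠ 2 := by
      have := le_trans (le_max_right P1 4) h0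
      omega
    obtain ⟨x, hx0, hxs⟩ := hP1 p (hP1'.trans h.le) _
      (A_deg (cq p (ext3 fun i j => q (i, j))) (cf p f)) (hB p hp h)
    exact sol_p2 h2 (fun i j => q (i, j)) f x hx0 hxs
  · rcases eq_or_ne p 2 with h2 | h2
    · subst h2
      apply sol_lead2
      apply BLS.sq_two
      refine dvd_trans ?_ hdvd
      push_cast
      exact dvd_mul_right _ _
    · apply sol_lead2
      apply BLS.sq_odd p h2
      refine dvd_trans ?_ hdvd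
      exact_mod_cast (dvd_mul_of_dvd_right ((Nat.Prime.dvd_factorial hp.out).mpr h) 8)

end HE
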