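import Pool.Agent.Lib.MP_10e784_agHE.Defs
import Pool.Agent.Lib.MP_10e784_agH.EF
import Pool.Agent.Lib.MP_10e784_agH.EG
import Pool.Agent.Lib.MP_10e784_agL.GD

/-!
# Two quadratic forms: the bad forms at the primes `p > N / M`

As `MP_10e784_agH/EH.lean`, with `N = H ^ k`, `k ≥ 5`: the resultant of `q₀` and `q₁` is not divisible by `p`.
-/

set_option autoImplicit false

namespace HE

open Polynomial HY

/-- The union bound for two sets. -/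
private theorem C_card {α : Type} (A B : α → Prop) (P : α → Prop)
    (hA : Finite {a // A a}) (hB : Finite {a // B a}) (a b : ℝ)
    (hAa : (Nat.card {x // A x} : ℝ) ≤ a) (hBb : (Nat.card {x // B x} : ℝ) ≤ b)
    (h : ∀ x, P x → A x ∨ B x) : (Nat.card {x // P x} : ℝ) ≤ a + b := by
  classical
  let φ : {x // P x} → {a // A a} ⊕ {a // B a} := fun x =>
    if hx : A x.1 then Sum.inl ⟨x.1, hx⟩ else Sum.inr ⟨x.1, (h x.1 x.2).resolve_left hx⟩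
  have hφ : Function.Injective φ := by
    have key : ∀ x : {x // P x}, (Sum.elim Subtype.val Subtype.val (φ x) : α) = x.1 := by
      intro x
      by_cases hx : A x.1
      · simp only [φ, dif_pos hx, Sum.elim_inl]
      · simp only [φ, dif_neg hx, Sum.elim_inr]
    intro x y hxy
    refine Subtype.ext ?_
    rw [← key x, ← key y, hxy]
  have h1 : Nat.card {x // P x} ≤ Nat.card ({a // A a} ⊕ {a // B a}) :=
    Nat.card_le_card_of_injective φ hφ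
  rw [Nat.card_sum] at h1
  have h2 : (Nat.card {x // P x} : ℝ) ≤ (Nat.card {a // A a} : ℝ) + (Nat.card {a // B a} : ℝ) := by
    exact_mod_cast h1
  linarith

private theorem C_nd (p : ℕ) (x : ℤ) (B : ℤ) (hx : x ≠ 0) (hB : |x| ≤ B) (hp : B < (p : ℤ)) :
    ((x : ℤ) : ZMod p) ≠ 0 := by
  intro h
  have h1 : (p : ℤ) ∣ x := (ZMod.intCast_zmod_eq_zero_iff_dvd x p).1 h
  have h2 : (p : ℤ) ≤ |x| := Int.le_of_dvd (abs_pos.2 hx) ((dvd_abs _ _).2 h1)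
  exact absurd (lt_of_lt_of_le hp (h2.trans hB)) (lt_irrefl _)

private theorem C_dq (v : Fin 3 → ℤ) (H : ℤ) (h : ∀ j, |v j| ≤ H) : |dq v| ≤ 5 * H ^ 2 := by
  have hH : 0 ≤ H := (abs_nonneg _).trans (h 0)
  have e1 : |v 1 ^ 2| ≤ H ^ 2 := by
    rw [abs_pow]
    exact pow_le_pow_left₀ (abs_nonneg _) (h 1) 2
  have e2 : |v 0 * v 2| ≤ H ^ 2 := by
    rw [abs_mul, sq]
    exact mul_le_mul (h 0) (h 2) (abs_nonneg _) hH
  unfold dq
  calc |v 1 ^ 2 - 4 * (v 0 * v 2)| ≤ |v 1 ^ 2| + |4 * (v 0 * v 2)| := abs_sub _ _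
    _ = |v 1 ^ 2| + 4 * |v 0 * v 2| := by
      rw [abs_mul, abs_of_pos (show (0 : ℤ) < 4 by norm_num)]
    _ ≤ 5 * H ^ 2 := by linarith

private theorem C_rq (v w : Fin 3 → ℤ) (H : ℤ) (hv : ∀ j, |v j| ≤ H) (hw : ∀ j, |w j| ≤ H) :
    |rq v w| ≤ 8 * H ^ 4 := by
  have hH : 0 ≤ H := (abs_nonneg _).trans (hv 0)
  have h1 : ∀ a b : Fin 3, |v a * w b| ≤ H ^ 2 := by
    intro a b
    rw [abs_mul, sq]
    exact mul_le_mul (hv a) (hw b) (abs_nonneg _) hH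
  have h2 : ∀ a b c d : Fin 3, |v a * w b - v c * w d| ≤ 2 * H ^ 2 := by
    intro a b c d
    have h3 := abs_sub (v a * w b) (v c * w d)
    have h4 := h1 a b
    have h5 := h1 c d
    linarith
  unfold rq
  have h3 := h2 0 2 2 0
  have h4 := h2 2 1 1 2
  have h5 := h2 1 0 0 1
  obtain ⟨A, hA⟩ : ∃ A : ℤ, A = v 0 * w 2 - v 2 * w 0 := ⟨_, rfl⟩
  obtain ⟨B, hB⟩ : ∃ B : ℤ, B = v 2 * w 1 - v 1 * w 2 := ⟨_, rfl⟩
  obtain ⟨C, hC⟩ : ∃ C : ℤ, C = v 1 * w 0 - v 0 * w 1 := ⟨_, rfl⟩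
  rw [← hA] at h3 ⊢
  rw [← hB] at h4 ⊢
  rw [← hC] at h5 ⊢
  have h6 : |A ^ 2| ≤ (2 * H ^ 2) ^ 2 := by
    rw [abs_pow]
    exact pow_le_pow_left₀ (abs_nonneg _) h3 2
  have h7 : |B * C| ≤ (2 * H ^ 2) * (2 * H ^ 2) := by
    rw [abs_mul]
    exact mul_le_mul h4 h5 (abs_nonneg _) (by positivity)
  have h8 := abs_sub (A ^ 2) (B * C)
  have h9 : (2 * H ^ 2) ^ 2 + (2 * H ^ 2) * (2 * H ^ 2) = 8 * H ^ 4 := by ring
  linarith

theorem bigF2 {m k : ℕ} (h4 : 4 ≤ m) (hk : 5 ≤ k) (M : ℕ) (hM : 1 ≤ M) : ∃ (C : ℝ) (H0 : ℕ), 0 < C ∧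
    ∀ H : ℕ, H0 ≤ H → ∀ P0 : ℕ, ∀ q : Fin 2 × Fin 3 → ℤ, Tq2 M H q → Gq2 P0 (fun i j => q (i, j)) →
    (Nat.card {f : Fin (m + 1) → ℤ // Tf M (H ^ k) f ∧ ∃ (p : ℕ) (_ : Fact p.Prime), 5 ≤ p ∧ H ^ k < p * M ∧
      BadF p (cq p (ext3 fun i j => q (i, j))) (cf p f)} : ℝ) ≤ C * ((H : ℝ) ^ k) ^ m := by
  classical
  obtain ⟨U, C, K, hU0, hU1, hUp, hUq, hUs⟩ := exists_U m (by omega)
  refine ⟨3 ^ m + 3 ^ m * (K * (3 * M)), C * M ^ (K + 1) + 8 * M + 1, by positivity, ?_⟩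
  intro H hH P0 q hq hG
  set N : ℕ := H ^ k with hNdef
  set L : ℕ := N / M + 1 with hLdef
  have hH1 : 1 ≤ H := by omega
  have hHM : 8 * M ≤ H := by
    have : 0 ≤ C * M ^ (K + 1) := Nat.zero_le _
    omega
  have hHC : C * M ^ (K + 1) ≤ H := by omega
  have hHN : H ≤ N := by
    rw [hNdef]
    calc H = H ^ 1 := (pow_one H).symm
      _ ≤ H ^ k := Nat.pow_le_pow_right hH1 (by omega)
  have hN1 : 1 ≤ N := le_trans hH1 hHN
  have hNL : N < L * M := by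
    rw [hLdef, mul_comm]
    exact Nat.lt_mul_div_succ N hM
  -- `L > 8 H⁴`
  have hL8 : 8 * H ^ 4 < L := by
    have h1 : 8 * H ^ 4 * M ≤ N := by
      rw [hNdef]
      calc 8 * H ^ 4 * M = H ^ 4 * (8 * M) := by ring
        _ ≤ H ^ 4 * H := Nat.mul_le_mul_left _ hHM
        _ = H ^ 5 := by ring
        _ ≤ H ^ k := Nat.pow_le_pow_right hH1 hk
    have h2 : 8 * H ^ 4 * M < L * M := lt_of_le_of_lt h1 hNL
    exact lt_of_mul_lt_mul_right h2 (Nat.zero_le M)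
  have hH24 : H ^ 2 ≤ H ^ 4 := Nat.pow_le_pow_right hH1 (by norm_num)
  have hH12 : H ≤ H ^ 4 := by
    calc H = H ^ 1 := (pow_one H).symm
      _ ≤ H ^ 4 := Nat.pow_le_pow_right hH1 (by norm_num)
  have hL5 : 5 * H ^ 2 < L := by omega
  have hLH : H < L := by omega
  -- `C N^K < L^(K+1)`
  have hCL : (C : ℤ) * (N : ℤ) ^ K < (L : ℤ) ^ (K + 1) := by
    have h1 : C * N ^ K * M ^ (K + 1) < L ^ (K + 1) * M ^ (K + 1) := by
      calc C * N ^ K * M ^ (K + 1) = N ^ K * (C * M ^ (K + 1)) := by ring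
        _ ≤ N ^ K * N := Nat.mul_le_mul_left _ (hHC.trans hHN)
        _ = N ^ (K + 1) := (pow_succ N K).symm
        _ < (L * M) ^ (K + 1) := Nat.pow_lt_pow_left hNL (Nat.succ_ne_zero K)
        _ = L ^ (K + 1) * M ^ (K + 1) := mul_pow _ _ _
    have h2 : C * N ^ K < L ^ (K + 1) := lt_of_mul_lt_mul_right h1 (Nat.zero_le _)
    exact_mod_cast h2
  have hv2 : ∀ i : Fin 2, q (i, 2) ≠ 0 := fun i => (hq.2 i).1.ne'
  have hqN : ∀ k, |q k| ≤ (N : ℤ) := fun k => (hq.1 k).trans (by exact_mod_cast hHN)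
  have hcard : Fintype.card (Fin (m + 1)) - 1 = m := by
    rw [Fintype.card_fin, Nat.add_sub_cancel]
  have hNr : ((N : ℕ) : ℝ) = (H : ℝ) ^ k := by
    rw [hNdef]
    push_cast
    rfl
  have key := C_card (α := Fin (m + 1) → ℤ)
    (fun f => (∀ k, |f k| ≤ (N : ℤ)) ∧ U (fun j => q (0, j)) f = 0)
    (fun f => (∀ k, |f k| ≤ (N : ℤ)) ∧ (U (fun j => q (0, j)) f ≠ 0 ∧ ∃ p : ℕ, ∃ _ : Fact p.Prime, L ≤ p ∧
      ¬ (p : ℤ) ∣ q (0, 2) ∧ pol (fun j => ((q (0, j) : ℤ) : ZMod p)) ∣ pol (cf p f)))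
    (fun f => Tf M N f ∧ ∃ (p : ℕ) (_ : Fact p.Prime), 5 ≤ p ∧ N < p * M ∧
      BadF p (cq p (ext3 fun i j => q (i, j))) (cf p f))
    (BLS.box_fin N _) (BLS.box_fin N _)
    ((3 * (N : ℝ)) ^ m) ((3 * (N : ℝ)) ^ m * (K * (3 * M))) ?_ ?_ ?_
  · refine key.trans (le_of_eq ?_)
    rw [hNr, mul_pow]
    ring
  · have h1 := BLS.fib1 (1 : Fin (m + 1)) N hN1 (fun f => U (fun j => q (0, j)) f = 0) (fun f f' hf hf' h =>
      hU1 _ f f' (hv2 0) h hf hf')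
    rw [hcard] at h1
    exact h1
  · have h1 := BLS.fib2 (0 : Fin (m + 1)) N L M K hN1 hM hNL.le (U (fun j => q (0, j)))
      (fun f f' h => hU0 _ f f' h)
      (fun p f => ∃ _ : Fact p.Prime, L ≤ p ∧
        ¬ (p : ℤ) ∣ q (0, 2) ∧ pol (fun j => ((q (0, j) : ℤ) : ZMod p)) ∣ pol (cf p f))
      (fun f hf => lt_of_le_of_lt (hUs N hN1 _ f (fun k => hqN _) hf) hCL) ?_ ?_
    · rw [hcard] at h1
      exact h1
    · rintro p f ⟨hp, hLp, hp2, hd⟩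
      exact ⟨hp.out, hLp, hUp p _ f hp2 hd⟩
    · rintro p f f' ⟨hp, hLp, hp2, hd⟩ ⟨_, _, _, hd'⟩ h
      exact hUq p _ f f' hp2 hd hd' h
  · rintro f ⟨hf, p, hp, hp5, hpM, hbad⟩
    have hLp : L ≤ p := by
      rw [hLdef]
      exact (Nat.div_lt_iff_lt_mul hM).2 hpM
    have hLpz : (L : ℤ) ≤ (p : ℤ) := by exact_mod_cast hLp
    have h2 : ((q (0, 2) : ℤ) : ZMod p) ≠ 0 := by
      refine C_nd p _ (H : ℤ) (hv2 0) (hq.1 _) (lt_of_lt_of_le ?_ hLpz)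
      exact_mod_cast hLH
    have hp2 : ¬ (p : ℤ) ∣ q (0, 2) := fun h => h2 ((ZMod.intCast_zmod_eq_zero_iff_dvd _ p).2 h)
    have hdq : dq (cq p (ext3 fun i j => q (i, j)) 0) ≠ 0 := by
      have h3 : dq (cq p (ext3 fun i j => q (i, j)) 0) = ((dq (fun j => q (0, j)) : ℤ) : ZMod p) := by
        simp only [dq, cq, ext3, Matrix.cons_val_zero]
        push_cast
        ring
      rw [h3]
      refine C_nd p _ (5 * (H : ℤ) ^ 2) (hG.1 0) (C_dq _ _ fun j => hq.1 _) (lt_of_lt_of_le ?_ hLpz)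
      exact_mod_cast hL5
    have hrq : ∀ j, j ≠ 0 → rq (cq p (ext3 fun i j => q (i, j)) 0) (cq p (ext3 fun i j => q (i, j)) j) ≠ 0 := by
      intro j hj
      have h5 : j = 1 ∨ j = 2 := by
        fin_cases j
        · exact absurd rfl hj
        · exact Or.inl rfl
        · exact Or.inr rfl
      rcases h5 with rfl | rfl
      · have h3 : rq (cq p (ext3 fun i j => q (i, j)) 0) (cq p (ext3 fun i j => q (i, j)) 1) =
            ((rq (fun j => q (0, j)) (fun j => q (1, j)) : ℤ) : ZMod p) := by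
          simp only [rq, cq, ext3, Matrix.cons_val_zero, Matrix.cons_val_one]
          push_cast
          ring
        rw [h3]
        refine C_nd p _ (8 * (H : ℤ) ^ 4) hG.2.1 (C_rq _ _ _ (fun j => hq.1 _) fun j => hq.1 _)
          (lt_of_lt_of_le ?_ hLpz)
        exact_mod_cast hL8
      · have h3 : rq (cq p (ext3 fun i j => q (i, j)) 0) (cq p (ext3 fun i j => q (i, j)) 2) =
            ((q (0, 2) : ℤ) : ZMod p) ^ 2 := by
          simp [rq, cq, ext3]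
        rw [h3]
        exact pow_ne_zero 2 h2
    have h2' : cq p (ext3 fun i j => q (i, j)) 0 2 ≠ 0 := h2
    have hd := dvd_of_bad (p := p) (by omega) (cq p (ext3 fun i j => q (i, j))) (cf p f) 0 h2' hdq hrq hbad
    have hd' : pol (fun j => ((q (0, j) : ℤ) : ZMod p)) ∣ pol (cf p f) := hd
    by_cases hU : U (fun j => q (0, j)) f = 0
    · exact Or.inl ⟨hf.1, hU⟩
    · exact Or.inr ⟨hf.1, hU, p, hp, hLp, hp2, hd'⟩

end HE
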