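import Pool.Agent.Lib.MP_10e784_agH.EDefs

/-!
# Local solubility of `y² = q₀ q₁ F`: definitions
-/

set_option autoImplicit false

namespace HE

open Finset Polynomial HY

/-- the curve `y² = q₀ q₁ F` has a point over the field `K` -/
def SolK2 (K : Type) [Field K] {m : ℕ} (q : Fin 2 → Fin 3 → ℤ) (f : Fin (m + 1) → ℤ) : Prop :=
  ∃ x z y : K, (x ≠ 0 ∨ z ≠ 0) ∧ y ^ 2 = qe (fun j => ((q 0 j : ℤ) : K)) x z * qe (fun j => ((q 1 j : ℤ) : K)) x z *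
    fe (fun i => ((f i : ℤ) : K)) x z

/-- `q₀`, `q₁` and the form `z²` -/
def ext3 (q : Fin 2 → Fin 3 → ℤ) : Fin 3 → Fin 3 → ℤ := ![q 0, q 1, ![1, 0, 0]]

/-- the box of the quadratic forms with leading coefficients positive and `≡ 1` modulo `M` -/
def Tq2 (M H : ℕ) (q : Fin 2 × Fin 3 → ℤ) : Prop :=
  (∀ k, |q k| ≤ (H : ℤ)) ∧ ∀ i : Fin 2, 0 < q (i, 2) ∧ (M : ℤ) ∣ q (i, 2) - 1

/-- the conditions on the quadratic forms: no discriminant is `0`, the resultant is not `0`, no prime `p > P0` divides all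
the coefficients of one of them -/
def Gq2 (P0 : ℕ) (q : Fin 2 → Fin 3 → ℤ) : Prop :=
  (∀ i, dq (q i) ≠ 0) ∧ rq (q 0) (q 1) ≠ 0 ∧ ∀ p : ℕ, p.Prime → P0 < p → ∀ i, ∃ j, ¬ (p : ℤ) ∣ q i j

end HE
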