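import Pool.Agent.Lib.MP_10e784_agHE.D
import Mathlib.Data.Pi.Interval

/-!
# A positive proportion of the pairs satisfies `Gq2`

As `MP_10e784_agH/EJ.lean`.
-/

set_option autoImplicit false

namespace HE

open HY

private theorem E_card {α : Type} [DecidableEq α] {S G A B C : Finset α} (h : S ⊆ G ∪ (A ∪ (B ∪ C))) :
    (S.card : ℝ) ≤ G.card + (A.card + (B.card + C.card)) := by
  have h1 : S.card ≤ G.card + (A.card + (B.card + C.card)) := by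
    refine (Finset.card_le_card h).trans ((Finset.card_union_le _ _).trans ?_)
    refine Nat.add_le_add_left ((Finset.card_union_le _ _).trans ?_) _
    exact Nat.add_le_add_left (Finset.card_union_le _ _) _
  exact_mod_cast h1

private theorem E_bU {α ι : Type} [DecidableEq α] [Fintype ι] (t : ι → Finset α) {b : ℝ}
    (h : ∀ x, ((t x).card : ℝ) ≤ b) : ((Finset.univ.biUnion t).card : ℝ) ≤ Fintype.card ι * b := by
  have h1 : ((Finset.univ.biUnion t).card : ℝ) ≤ ∑ x : ι, ((t x).card : ℝ) := by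
    exact_mod_cast (Finset.card_biUnion_le : (Finset.univ.biUnion t).card ≤ ∑ x : ι, (t x).card)
  refine h1.trans ?_
  have h2 := Finset.sum_le_card_nsmul Finset.univ (fun x => ((t x).card : ℝ)) b fun x _ => h x
  rwa [nsmul_eq_mul, Finset.card_univ] at h2

theorem good_q2 : ∃ P1 : ℕ, 4 ≤ P1 ∧ ∀ P0 M : ℕ, P1 ≤ P0 → 1 ≤ M → ∃ H0 : ℕ, ∀ H : ℕ, H0 ≤ H →
    (H : ℝ) ^ 6 / (2 * (M : ℝ) ^ 2) ≤ (Nat.card {q : Fin 2 × Fin 3 → ℤ // Tq2 M H q ∧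
      Gq2 P0 (fun i j => q (i, j))} : ℝ) := by
  classical
  obtain ⟨C, hC, hp⟩ := cnt2_p
  refine ⟨max 4 ⌈8 * C⌉₊, le_max_left _ _, fun P0 M hP0 hM => ?_⟩
  have hP4 : 4 ≤ P0 := le_trans (le_max_left _ _) hP0
  have hP12 : 8 * C ≤ (P0 : ℝ) :=
    le_trans (Nat.le_ceil _) (Nat.cast_le.2 (le_trans (le_max_right _ _) hP0))
  refine ⟨max M (16 * 3 ^ 5 * M ^ 2), fun H hH => ?_⟩
  have hHM : M ≤ H := le_trans (le_max_left _ _) hH
  have hHb : 16 * 3 ^ 5 * M ^ 2 ≤ H := le_trans (le_max_right _ _) hH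
  have hH1 : 1 ≤ H := le_trans hM hHM
  have hfin : {q : Fin 2 × Fin 3 → ℤ | Tq2 M H q}.Finite := by
    refine (Set.finite_Icc (fun _ => -(H : ℤ)) (fun _ => (H : ℤ))).subset ?_
    intro q hq
    exact ⟨fun k => (abs_le.1 (hq.1 k)).1, fun k => (abs_le.1 (hq.1 k)).2⟩
  obtain ⟨S, hS⟩ : ∃ S : Finset (Fin 2 × Fin 3 → ℤ), ∀ q, q ∈ S ↔ Tq2 M H q :=
    ⟨hfin.toFinset, fun q => hfin.mem_toFinset⟩
  have hcard : ∀ (p : (Fin 2 × Fin 3 → ℤ) → Prop) [DecidablePred p],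
      Nat.card {q : Fin 2 × Fin 3 → ℤ // Tq2 M H q ∧ p q} = (S.filter p).card := fun p _ =>
    Nat.subtype_card _ fun q => by rw [Finset.mem_filter, hS]
  have hST : Nat.card {q : Fin 2 × Fin 3 → ℤ // Tq2 M H q} = S.card := Nat.subtype_card _ hS
  have e1 := cnt2_T M H hM hH1
  rw [hST] at e1
  have e2 : ∀ i : Fin 2, ((S.filter fun q => dq (fun j => q (i, j)) = 0).card : ℝ) ≤ (3 * (H : ℝ)) ^ 5 := fun i => by
    rw [← hcard]
    exact cnt2_d M H hH1 i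
  have e3 : ((S.filter fun q => rq (fun l => q (0, l)) (fun l => q (1, l)) = 0).card : ℝ) ≤
      2 * (3 * (H : ℝ)) ^ 5 := by
    rw [← hcard]
    exact cnt2_r M H hH1 0 1 (by decide)
  have e4 : ∀ i : Fin 2, ((S.filter fun q => ∃ p : ℕ, p.Prime ∧ P0 < p ∧ ∀ j, (p : ℤ) ∣ q (i, j)).card : ℝ) ≤
      C * (H : ℝ) ^ 6 / ((M : ℝ) ^ 2 * P0) := fun i => by
    rw [← hcard]
    exact hp P0 M H hP4 hM hHM i
  rw [hcard]
  have hsub : S ⊆ (S.filter fun q => Gq2 P0 (fun i j => q (i, j))) ∪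
      ((Finset.univ.biUnion fun i : Fin 2 => S.filter fun q => dq (fun j => q (i, j)) = 0) ∪
      ((S.filter fun q => rq (fun l => q (0, l)) (fun l => q (1, l)) = 0) ∪
      (Finset.univ.biUnion fun i : Fin 2 => S.filter fun q => ∃ p : ℕ, p.Prime ∧ P0 < p ∧
        ∀ j, (p : ℤ) ∣ q (i, j)))) := by
    intro q hq
    by_cases c1 : ∃ i : Fin 2, dq (fun j => q (i, j)) = 0
    · obtain ⟨i, hi⟩ := c1
      exact Finset.mem_union_right _ (Finset.mem_union_left _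
        (Finset.mem_biUnion.2 ⟨i, Finset.mem_univ _, Finset.mem_filter.2 ⟨hq, hi⟩⟩))
    by_cases c2 : rq (fun l => q (0, l)) (fun l => q (1, l)) = 0
    · exact Finset.mem_union_right _ (Finset.mem_union_right _ (Finset.mem_union_left _
        (Finset.mem_filter.2 ⟨hq, c2⟩)))
    by_cases c3 : ∃ i : Fin 2, ∃ p : ℕ, p.Prime ∧ P0 < p ∧ ∀ j, (p : ℤ) ∣ q (i, j)
    · obtain ⟨i, hi⟩ := c3
      exact Finset.mem_union_right _ (Finset.mem_union_right _ (Finset.mem_union_right _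
        (Finset.mem_biUnion.2 ⟨i, Finset.mem_univ _, Finset.mem_filter.2 ⟨hq, hi⟩⟩)))
    refine Finset.mem_union_left _ (Finset.mem_filter.2 ⟨hq, fun i h => c1 ⟨i, h⟩, c2,
      fun p hpp hpP i => ?_⟩)
    by_contra hcon
    push Not at hcon
    exact c3 ⟨i, p, hpp, hpP, hcon⟩
  have hle := E_card hsub
  have b1 := E_bU _ e2
  have b3 := E_bU _ e4
  simp only [Fintype.card_fin] at b1 b3
  push_cast at b1 b3
  have hM0 : (0 : ℝ) < M := by exact_mod_cast (show 0 < M by omega)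
  have hH0 : (0 : ℝ) < H := by exact_mod_cast (show 0 < H by omega)
  have hP0' : (0 : ℝ) < P0 := by exact_mod_cast (show 0 < P0 by omega)
  have hM3 : (0 : ℝ) < (M : ℝ) ^ 2 := pow_pos hM0 2
  have f1 : 2 * (C * (H : ℝ) ^ 6 / ((M : ℝ) ^ 2 * P0)) ≤ 1 / 4 * ((H : ℝ) ^ 6 / (M : ℝ) ^ 2) := by
    rw [show 2 * (C * (H : ℝ) ^ 6 / ((M : ℝ) ^ 2 * P0)) = 2 * C / P0 * ((H : ℝ) ^ 6 / (M : ℝ) ^ 2) by
      field_simp]
    refine mul_le_mul_of_nonneg_right ?_ (by positivity)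
    rw [div_le_iff₀ hP0']
    linarith
  have f2 : 4 * (3 * (H : ℝ)) ^ 5 ≤ 1 / 4 * ((H : ℝ) ^ 6 / (M : ℝ) ^ 2) := by
    have g1 : (16 : ℝ) * 3 ^ 5 * (M : ℝ) ^ 2 ≤ H := by exact_mod_cast hHb
    have g2 : (H : ℝ) ^ 5 * (16 * 3 ^ 5 * (M : ℝ) ^ 2) ≤ (H : ℝ) ^ 5 * H :=
      mul_le_mul_of_nonneg_left g1 (by positivity)
    have g3 : (16 : ℝ) * (3 * (H : ℝ)) ^ 5 ≤ (H : ℝ) ^ 6 / (M : ℝ) ^ 2 := by
      rw [le_div_iff₀ hM3]
      calc (16 : ℝ) * (3 * (H : ℝ)) ^ 5 * (M : ℝ) ^ 2 = (H : ℝ) ^ 5 * (16 * 3 ^ 5 * (M : ℝ) ^ 2) := by ring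
        _ ≤ (H : ℝ) ^ 5 * H := g2
        _ = (H : ℝ) ^ 6 := by ring
    linarith
  have f3 : (H : ℝ) ^ 6 / (2 * (M : ℝ) ^ 2) = 1 / 2 * ((H : ℝ) ^ 6 / (M : ℝ) ^ 2) := by
    field_simp
  rw [f3]
  linarith

end HE
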