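import Pool.Agent.Lib.MP_10e784_agHT.Defs
import Pool.Agent.Lib.MP_10e784_agH.PB

/-!
# Two quadratic forms: the product is squarefree

As `MP_10e784_agH/EL.lean`.
-/

set_option autoImplicit false

namespace HE

open HY HT

open Polynomial

private theorem G_three {K : Type} [Field K] (v : Fin 3 → K) :
    pol v = C (v 0) + C (v 1) * X + C (v 2) * X ^ 2 := by
  unfold pol
  rw [Fin.sum_univ_three]
  simp only [Fin.val_zero, Fin.val_one, Fin.val_two, ← C_mul_X_pow_eq_monomial, pow_zero, pow_one, mul_one]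

private theorem G_map {k : ℕ} (f : Fin k → ℤ) :
    pol (fun i => ((f i : ℤ) : ℚ)) = (pol f).map (Int.castRingHom ℚ) := by
  unfold pol
  rw [Polynomial.map_sum]
  refine Finset.sum_congr rfl fun i _ => ?_
  rw [Polynomial.map_monomial]
  rfl

private theorem G_one {K : Type} [Field K] (v : Fin 3 → K) (h : dq v ≠ 0) : Squarefree (pol v) := by
  apply Separable.squarefree
  have hd : derivative (pol v) = C (v 1) + C (2 * v 2) * X := by
    rw [G_three]
    simp only [derivative_add, derivative_C, derivative_C_mul, derivative_X, derivative_X_pow, zero_add, mul_one]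
    rw [C_mul]
    simp only [Nat.cast_ofNat, map_ofNat, Nat.add_one_sub_one, pow_one]
    ring
  have hid : C (-4 * v 2) * pol v + derivative (pol v) * derivative (pol v) = C (dq v) := by
    rw [hd, G_three]
    unfold dq
    simp only [C_sub, C_mul, C_pow, C_neg, map_ofNat]
    ring
  have hc : (C (dq v)⁻¹ : K[X]) * C (dq v) = 1 := by
    rw [← C_mul, inv_mul_cancel₀ h, C_1]
  refine ⟨C (dq v)⁻¹ * C (-4 * v 2), C (dq v)⁻¹ * derivative (pol v), ?_⟩
  rw [mul_assoc, mul_assoc, ← mul_add, hid, hc]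

private theorem G_two {K : Type} [Field K] (v w : Fin 3 → K) (h : rq v w ≠ 0) :
    IsCoprime (pol v) (pol w) := by
  have hid : (C ((v 0 * w 2 - v 2 * w 0) * w 2 - (v 1 * w 2 - v 2 * w 1) * w 1) -
        C ((v 1 * w 2 - v 2 * w 1) * w 2) * X) * pol v +
      (C (-((v 0 * w 2 - v 2 * w 0) * v 2) + (v 1 * w 2 - v 2 * w 1) * v 1) +
        C ((v 1 * w 2 - v 2 * w 1) * v 2) * X) * pol w = C (rq v w) := by
    rw [G_three, G_three]
    unfold rq
    simp only [C_sub, C_add, C_mul, C_pow, C_neg]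
    ring
  have hc : (C (rq v w)⁻¹ : K[X]) * C (rq v w) = 1 := by
    rw [← C_mul, inv_mul_cancel₀ h, C_1]
  refine ⟨C (rq v w)⁻¹ * (C ((v 0 * w 2 - v 2 * w 0) * w 2 - (v 1 * w 2 - v 2 * w 1) * w 1) -
        C ((v 1 * w 2 - v 2 * w 1) * w 2) * X),
      C (rq v w)⁻¹ * (C (-((v 0 * w 2 - v 2 * w 0) * v 2) + (v 1 * w 2 - v 2 * w 1) * v 1) +
        C ((v 1 * w 2 - v 2 * w 1) * v 2) * X), ?_⟩
  rw [mul_assoc, mul_assoc, ← mul_add, hid, hc]

private theorem G_res {K : Type} [Field K] {m : ℕ} (v : Fin 3 → K) (f : Fin (m + 1) → K) (h : rf v f ≠ 0) :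
    IsCoprime (pol v) (pol f) := by
  obtain ⟨p, q, -, -, e⟩ := exists_mul_add_mul_eq_C_resultant (m := 2) (n := m) (pol v) (pol f)
    (pol_deg v) (pol_deg f) (Or.inl two_ne_zero)
  have hc : (C (rf v f)⁻¹ : K[X]) * C (rf v f) = 1 := by
    rw [← C_mul, inv_mul_cancel₀ h, C_1]
  refine ⟨C (rf v f)⁻¹ * p, C (rf v f)⁻¹ * q, ?_⟩
  have e' : p * pol v + q * pol f = C (rf v f) := by
    unfold rf
    rw [← e]
    ring
  rw [mul_assoc, mul_assoc, ← mul_add, e', hc]

private theorem G_deg {K : Type} [Field K] {m : ℕ} (f : Fin (m + 1) → K) (h : f (Fin.last m) ≠ 0) :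
    (pol f).natDegree = m := by
  refine le_antisymm (pol_deg f) ?_
  apply Polynomial.le_natDegree_of_ne_zero
  rw [pol_coeff, dif_pos (Nat.lt_succ_self m)]
  exact h

theorem sqf_prod2 {m : ℕ} (q : Fin 2 → Fin 3 → ℤ) (f : Fin (m + 1) → ℤ) (hR : RT q f ≠ 0)
    (hf : f (Fin.last m) ≠ 0) (hs : Squarefree (pol (fun i => ((f i : ℤ) : ℚ)))) :
    Squarefree (pol (fun j => ((q 0 j : ℤ) : ℚ)) * pol (fun j => ((q 1 j : ℤ) : ℚ)) *
      pol (fun i => ((f i : ℤ) : ℚ))) ∧
    (pol (fun j => ((q 0 j : ℤ) : ℚ)) * pol (fun j => ((q 1 j : ℤ) : ℚ)) *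
      pol (fun i => ((f i : ℤ) : ℚ))).natDegree = m + 4 := by
  unfold RT at hR
  have hR1 := left_ne_zero_of_mul hR
  have hR2 := right_ne_zero_of_mul hR
  have hq := right_ne_zero_of_mul hR1
  have hR3 := left_ne_zero_of_mul hR1
  have hd := left_ne_zero_of_mul hR3
  have hr1 : rq (q 0) (q 1) ≠ 0 := right_ne_zero_of_mul hR3
  rw [Finset.prod_ne_zero_iff] at hd hR2 hq
  have cd : ∀ i, dq (fun j => ((q i j : ℤ) : ℚ)) ≠ 0 := by
    intro i
    have h := hd i (Finset.mem_univ i)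
    have e : dq (fun j => ((q i j : ℤ) : ℚ)) = ((dq (q i) : ℤ) : ℚ) := by
      unfold dq
      push_cast
      ring
    rw [e]
    exact_mod_cast h
  have cr : ∀ i j, rq (q i) (q j) ≠ 0 →
      IsCoprime (pol (fun k => ((q i k : ℤ) : ℚ))) (pol (fun k => ((q j k : ℤ) : ℚ))) := by
    intro i j h
    apply G_two
    have e : rq (fun k => ((q i k : ℤ) : ℚ)) (fun k => ((q j k : ℤ) : ℚ)) = ((rq (q i) (q j) : ℤ) : ℚ) := by
      unfold rq
      push_cast
      ring
    rw [e]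
    exact_mod_cast h
  have cf : ∀ i, IsCoprime (pol (fun k => ((q i k : ℤ) : ℚ))) (pol (fun k => ((f k : ℤ) : ℚ))) := by
    intro i
    apply G_res
    have h := hR2 i (Finset.mem_univ i)
    have e : rf (fun k => ((q i k : ℤ) : ℚ)) (fun k => ((f k : ℤ) : ℚ)) = ((rf (q i) f : ℤ) : ℚ) := by
      unfold rf
      rw [G_map, G_map, resultant_map_map]
      rfl
    rw [e]
    exact_mod_cast h
  have s : ∀ i, Squarefree (pol (fun k => ((q i k : ℤ) : ℚ))) := fun i => G_one _ (cd i)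
  have dg : ∀ i, (pol (fun k => ((q i k : ℤ) : ℚ))).natDegree = 2 := by
    intro i
    refine G_deg (m := 2) (fun k => ((q i k : ℤ) : ℚ)) ?_
    have h := hq i (Finset.mem_univ i)
    have h' : ((q i 2 : ℤ) : ℚ) ≠ 0 := by exact_mod_cast h
    exact h'
  have dgf : (pol (fun k => ((f k : ℤ) : ℚ))).natDegree = m := by
    refine G_deg (fun k => ((f k : ℤ) : ℚ)) ?_
    have h' : ((f (Fin.last m) : ℤ) : ℚ) ≠ 0 := by exact_mod_cast hf
    exact h'
  have n0 : ∀ i, pol (fun k => ((q i k : ℤ) : ℚ)) ≠ 0 := fun i => (s i).ne_zero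
  have nf : pol (fun k => ((f k : ℤ) : ℚ)) ≠ 0 := hs.ne_zero
  have s01 := squarefree_mul_iff.2 ⟨(cr 0 1 hr1).isRelPrime, s 0, s 1⟩
  have s3 := squarefree_mul_iff.2 ⟨((cf 0).mul_left (cf 1)).isRelPrime, s01, hs⟩
  refine ⟨s3, ?_⟩
  rw [natDegree_mul (mul_ne_zero (n0 0) (n0 1)) nf, natDegree_mul (n0 0) (n0 1), dg 0, dg 1, dgf]
  omega

end HE
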