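import Pool.Agent.Lib.MP_10e784_agHE.F
import Pool.Agent.Lib.MP_10e784_agHE.G
import Pool.Agent.Lib.MP_10e784_agH.EM
import Pool.Agent.Lib.MP_10e784_agL.SE

/-!
# Two quadratic forms: the failure of the Hasse principle

As `MP_10e784_agH/EN.lean`.
-/

set_option autoImplicit false

namespace HE

open HY HT

open Polynomial

private noncomputable abbrev Hbx (ι : Type) [Fintype ι] [DecidableEq ι] (N : ℕ) : Finset (ι → ℤ) :=
  Fintype.piFinset (fun _ : ι => Finset.Icc (-(N : ℤ)) N)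

private theorem H_mem {ι : Type} [Fintype ι] [DecidableEq ι] (N : ℕ) (g : ι → ℤ) :
    g ∈ Hbx ι N ↔ ∀ i, |g i| ≤ (N : ℤ) := by
  simp only [Hbx, Fintype.mem_piFinset, Finset.mem_Icc, abs_le]

private theorem H_card {ι : Type} [Fintype ι] [DecidableEq ι] (N : ℕ) :
    (Hbx ι N).card = (2 * N + 1) ^ Fintype.card ι := by
  rw [Hbx, Fintype.card_piFinset, Finset.prod_const, Int.card_Icc, Finset.card_univ]
  congr 1
  omega

private theorem H_zero {ι : Type} [Fintype ι] [DecidableEq ι] (N : ℕ) (k : ι) :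
    ((Hbx ι N).filter (fun g => g k = 0)).card ≤ (2 * N + 1) ^ (Fintype.card ι - 1) := by
  have h1 : (Hbx ι N).filter (fun g => g k = 0) ⊆
      Fintype.piFinset (fun j => if j = k then ({0} : Finset ℤ) else Finset.Icc (-(N : ℤ)) N) := by
    intro g hg
    rw [Finset.mem_filter, Fintype.mem_piFinset] at hg
    rw [Fintype.mem_piFinset]
    intro j
    by_cases h : j = k
    · rw [if_pos h, h, hg.2]
      exact Finset.mem_singleton_self 0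
    · rw [if_neg h]
      exact hg.1 j
  refine (Finset.card_le_card h1).trans (le_of_eq ?_)
  rw [Fintype.card_piFinset, ← Finset.mul_prod_erase Finset.univ _ (Finset.mem_univ k), if_pos rfl,
    Finset.card_singleton, one_mul]
  have h2 : ∀ j ∈ Finset.univ.erase k,
      (if j = k then ({0} : Finset ℤ) else Finset.Icc (-(N : ℤ)) N).card = 2 * N + 1 := by
    intro j hj
    rw [if_neg (Finset.ne_of_mem_erase hj), Int.card_Icc]
    omega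
  rw [Finset.prod_congr rfl h2, Finset.prod_const, Finset.card_erase_of_mem (Finset.mem_univ k), Finset.card_univ]

/-- the real estimate of the small sets -/
private theorem H_real {m k H : ℕ} (hk : 1 ≤ k) (hH : 1 ≤ H) :
    ((2 * H + 1) ^ 6 * (2 * H ^ k + 1) ^ m +
      (2 * H + 1) ^ 6 * (m * (2 * H ^ k + 1) ^ m) : ℕ) ≤ (m + 1) * 3 ^ (m + 6) * H ^ (5 + k * (m + 1)) := by
  have a1 : 2 * H + 1 ≤ 3 * H := by omega
  have hH4 : 1 ≤ H ^ k := Nat.one_le_pow _ _ hH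
  have a2 : 2 * H ^ k + 1 ≤ 3 * H ^ k := by omega
  have b2 : (2 * H + 1) ^ 6 * (2 * H ^ k + 1) ^ m ≤ 3 ^ (m + 6) * H ^ (5 + k * (m + 1)) := by
    calc (2 * H + 1) ^ 6 * (2 * H ^ k + 1) ^ m ≤ (3 * H) ^ 6 * (3 * H ^ k) ^ m :=
          Nat.mul_le_mul (Nat.pow_le_pow_left a1 6) (Nat.pow_le_pow_left a2 m)
      _ = 3 ^ (m + 6) * H ^ (6 + k * m) := by
          rw [mul_pow, mul_pow, ← pow_mul]
          rw [pow_add 3 m 6, pow_add H 6 (k * m)]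
          ring
      _ ≤ 3 ^ (m + 6) * H ^ (5 + k * (m + 1)) := by
          refine Nat.mul_le_mul le_rfl (Nat.pow_le_pow_right hH ?_)
          rw [Nat.mul_add, Nat.mul_one]
          omega
  have b3 : (2 * H + 1) ^ 6 * (m * (2 * H ^ k + 1) ^ m) ≤ m * (3 ^ (m + 6) * H ^ (5 + k * (m + 1))) := by
    calc (2 * H + 1) ^ 6 * (m * (2 * H ^ k + 1) ^ m) = m * ((2 * H + 1) ^ 6 * (2 * H ^ k + 1) ^ m) := by ring
      _ ≤ _ := Nat.mul_le_mul le_rfl b2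
  calc (2 * H + 1) ^ 6 * (2 * H ^ k + 1) ^ m +
      (2 * H + 1) ^ 6 * (m * (2 * H ^ k + 1) ^ m) ≤
      3 ^ (m + 6) * H ^ (5 + k * (m + 1)) +
        m * (3 ^ (m + 6) * H ^ (5 + k * (m + 1))) := by
        exact Nat.add_le_add b2 b3
    _ = (m + 1) * 3 ^ (m + 6) * H ^ (5 + k * (m + 1)) := by ring

/-- the counting of the small sets -/
private theorem H_cnt {m k : ℕ} (hm : 1 ≤ m) (hk : 1 ≤ k) {H : ℕ} (hH : 1 ≤ H)
    [DecidablePred fun z : (Fin 2 × Fin 3 → ℤ) × (Fin (m + 1) → ℤ) => z.2 (Fin.last m) = 0 ∨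
        (z.2 (Fin.last m) ≠ 0 ∧ ¬ Squarefree (pol (fun i => ((z.2 i : ℤ) : ℚ))))] :
    (((Hbx (Fin 2 × Fin 3) H) ×ˢ (Hbx (Fin (m + 1)) (H ^ k))).filter
      (fun z : (Fin 2 × Fin 3 → ℤ) × (Fin (m + 1) → ℤ) => z.2 (Fin.last m) = 0 ∨
        (z.2 (Fin.last m) ≠ 0 ∧ ¬ Squarefree (pol (fun i => ((z.2 i : ℤ) : ℚ)))))).card ≤
      (m + 1) * 3 ^ (m + 6) * H ^ (5 + k * (m + 1)) := by
  classical
  refine le_trans ?_ (H_real (m := m) hk hH)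
  let B1 := Hbx (Fin 2 × Fin 3) H
  let B2 := Hbx (Fin (m + 1)) (H ^ k)
  have c1 : B1.card = (2 * H + 1) ^ 6 := by
    have h := H_card (ι := Fin 2 × Fin 3) H
    rw [Fintype.card_prod, Fintype.card_fin, Fintype.card_fin] at h
    exact h
  have c4 : (B2.filter (fun g => g (Fin.last m) = 0)).card ≤ (2 * H ^ k + 1) ^ m := by
    have h := H_zero (ι := Fin (m + 1)) (H ^ k) (Fin.last m)
    rw [Fintype.card_fin, Nat.add_sub_cancel] at h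
    exact h
  have c5 : (B2.filter (fun f => f (Fin.last m) ≠ 0 ∧ ¬ Squarefree (pol (fun i => ((f i : ℤ) : ℚ))))).card ≤
      m * (2 * H ^ k + 1) ^ m := by
    have h := cnt_sqf m (H ^ k) hm
    have e := Nat.subtype_card (p := fun f : Fin (m + 1) → ℤ => (∀ j, |f j| ≤ ((H ^ k : ℕ) : ℤ)) ∧ f (Fin.last m) ≠ 0 ∧
      ¬ Squarefree (pol (fun i => ((f i : ℤ) : ℚ))))
      (B2.filter (fun f => f (Fin.last m) ≠ 0 ∧ ¬ Squarefree (pol (fun i => ((f i : ℤ) : ℚ)))))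
      (fun f => by rw [Finset.mem_filter, H_mem])
    rw [e] at h
    exact h
  have hsub : (B1 ×ˢ B2).filter
      (fun z : (Fin 2 × Fin 3 → ℤ) × (Fin (m + 1) → ℤ) => z.2 (Fin.last m) = 0 ∨
        (z.2 (Fin.last m) ≠ 0 ∧ ¬ Squarefree (pol (fun i => ((z.2 i : ℤ) : ℚ))))) ⊆
        (B1 ×ˢ (B2.filter (fun g => g (Fin.last m) = 0))) ∪
        (B1 ×ˢ (B2.filter (fun f => f (Fin.last m) ≠ 0 ∧ ¬ Squarefree (pol (fun i => ((f i : ℤ) : ℚ)))))) := by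
    intro z hz
    obtain ⟨h1, h2⟩ := Finset.mem_filter.1 hz
    obtain ⟨h3, h4⟩ := Finset.mem_product.1 h1
    rcases h2 with h2 | h2
    · exact Finset.mem_union_left _ (Finset.mem_product.2 ⟨h3, Finset.mem_filter.2 ⟨h4, h2⟩⟩)
    · exact Finset.mem_union_right _ (Finset.mem_product.2 ⟨h3, Finset.mem_filter.2 ⟨h4, h2⟩⟩)
  have hle := Finset.card_le_card hsub
  refine le_trans (le_trans (le_of_eq ?_) hle) ?_
  · exact congrArg Finset.card (Finset.filter_congr_decidable _ _ _)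
  refine (Finset.card_union_le _ _).trans (Nat.add_le_add ?_ ?_)
  · rw [Finset.card_product, c1]
    exact Nat.mul_le_mul le_rfl c4
  · rw [Finset.card_product, c1]
    exact Nat.mul_le_mul le_rfl c5

private theorem H_nat {m k : ℕ} (H : ℕ) (P : (Fin 2 × Fin 3 → ℤ) × (Fin (m + 1) → ℤ) → Prop) [DecidablePred P] :
    Nat.card {z : (Fin 2 × Fin 3 → ℤ) × (Fin (m + 1) → ℤ) //
      (∀ i, |z.1 i| ≤ (H : ℤ)) ∧ (∀ i, |z.2 i| ≤ (H : ℤ) ^ k) ∧ P z} =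
    (((Hbx (Fin 2 × Fin 3) H) ×ˢ (Hbx (Fin (m + 1)) (H ^ k))).filter P).card := by
  refine Nat.subtype_card _ fun z => ?_
  rw [Finset.mem_filter, Finset.mem_product, H_mem, H_mem, and_assoc]
  push_cast
  exact Iff.rfl

theorem hp2 {c : ℝ} (hc : 0 < c) {m k : ℕ} (hm : Even m) (h4m : 4 ≤ m) (hk : 5 ≤ k)
    (hS : ∀ (q : Fin 2 → Fin 3 → ℤ) (f : Fin (m + 1) → ℤ), SolK2 ℚ q f → SolT q f)
    (hO : ∃ c' C : ℝ, 0 < c' ∧ ∀ H : ℕ, 1 ≤ H → (Nat.card {z : (Fin 2 × Fin 3 → ℤ) × (Fin (m + 1) → ℤ) //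
      (∀ i, |z.1 i| ≤ (H : ℤ)) ∧ (∀ i, |z.2 i| ≤ (H : ℤ) ^ k) ∧ RT (fun i j => z.1 (i, j)) z.2 = 0} : ℝ) ≤
      C * (H : ℝ) ^ (6 + k * (m + 1)) * Real.exp (-(Real.log H) ^ c'))
    (hA : ∃ C : ℝ, ∀ H : ℕ, 1 ≤ H → (Nat.card {z : (Fin 2 × Fin 3 → ℤ) × (Fin (m + 1) → ℤ) //
      (∀ i, |z.1 i| ≤ (H : ℤ)) ∧ (∀ i, |z.2 i| ≤ (H : ℤ) ^ k) ∧ SolT (fun i j => z.1 (i, j)) z.2} : ℝ) ≤
      C * (H : ℝ) ^ (6 + k * (m + 1)) * Real.exp (-(Real.log H) ^ c)) :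
    ∃ (η : ℝ) (H0 : ℕ), 0 < η ∧ ∀ H : ℕ, H0 ≤ H → η * (H : ℝ) ^ (6 + k * (m + 1)) ≤
      (Nat.card {z : (Fin 2 × Fin 3 → ℤ) × (Fin (m + 1) → ℤ) //
        (∀ i, |z.1 i| ≤ (H : ℤ)) ∧ (∀ i, |z.2 i| ≤ (H : ℤ) ^ k) ∧
        (Squarefree (pol (fun j => ((z.1 (0, j) : ℤ) : ℚ)) * pol (fun j => ((z.1 (1, j) : ℤ) : ℚ)) *
            pol (fun i => ((z.2 i : ℤ) : ℚ))) ∧
          (pol (fun j => ((z.1 (0, j) : ℤ) : ℚ)) * pol (fun j => ((z.1 (1, j) : ℤ) : ℚ)) *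
            pol (fun i => ((z.2 i : ℤ) : ℚ))).natDegree = m + 4) ∧
        SolK2 ℝ (fun i j => z.1 (i, j)) z.2 ∧ (∀ (p : ℕ) [Fact p.Prime], SolK2 ℚ_[p] (fun i j => z.1 (i, j)) z.2) ∧
        ¬ SolK2 ℚ (fun i j => z.1 (i, j)) z.2} : ℝ) := by
  classical
  obtain ⟨η, H1, hη, h1⟩ := loc2 hm h4m hk
  obtain ⟨C, hC⟩ := hA
  obtain ⟨c', C', hc', hC'⟩ := hO
  have hη8 : 0 < η / 8 := by positivity
  obtain ⟨H2, h2⟩ := BLS.exp_small (C := C) hc hη8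
  obtain ⟨H3, h3⟩ := BLS.exp_small (c := c') (C := C') hc' hη8
  obtain ⟨H4, h4⟩ := exists_nat_ge (((m + 1) * 3 ^ (m + 6) : ℕ) / (η / 8) : ℝ)
  refine ⟨η / 2, max H1 (max H2 (max H3 (max H4 1))), half_pos hη, fun H hH => ?_⟩
  have a1 : H1 ≤ H := (le_max_left _ _).trans hH
  have hH' := (le_max_right _ _).trans hH
  have a2 : H2 ≤ H := (le_max_left _ _).trans hH'
  have hH'' := (le_max_right _ _).trans hH'
  have a3 : H3 ≤ H := (le_max_left _ _).trans hH''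
  have hH''' := (le_max_right _ _).trans hH''
  have a4 : H4 ≤ H := (le_max_left _ _).trans hH'''
  have a5 : 1 ≤ H := (le_max_right _ _).trans hH'''
  have k1 := h1 H a1
  have k2 := hC H a5
  have k3 := hC' H a5
  have k4 := h2 H a2
  have k5 := h3 H a3
  have k6 := H_cnt (m := m) (k := k) (by omega) (by omega) a5
  have hpos : (0 : ℝ) < (H : ℝ) ^ (6 + k * (m + 1)) := by
    have : (0 : ℝ) < H := by exact_mod_cast a5
    positivity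
  -- the three estimates
  have s1 : (Nat.card {z : (Fin 2 × Fin 3 → ℤ) × (Fin (m + 1) → ℤ) //
      (∀ i, |z.1 i| ≤ (H : ℤ)) ∧ (∀ i, |z.2 i| ≤ (H : ℤ) ^ k) ∧ SolT (fun i j => z.1 (i, j)) z.2} : ℝ) ≤
      η / 8 * (H : ℝ) ^ (6 + k * (m + 1)) := by
    refine k2.trans ?_
    calc C * (H : ℝ) ^ (6 + k * (m + 1)) * Real.exp (-(Real.log H) ^ c) =
          C * Real.exp (-(Real.log H) ^ c) * (H : ℝ) ^ (6 + k * (m + 1)) := by ring
      _ ≤ η / 8 * (H : ℝ) ^ (6 + k * (m + 1)) := mul_le_mul_of_nonneg_right k4 hpos.le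
  have s2 := k3.trans (show C' * (H : ℝ) ^ (6 + k * (m + 1)) * Real.exp (-(Real.log H) ^ c') ≤
      η / 8 * (H : ℝ) ^ (6 + k * (m + 1)) from by
    calc C' * (H : ℝ) ^ (6 + k * (m + 1)) * Real.exp (-(Real.log H) ^ c') =
          C' * Real.exp (-(Real.log H) ^ c') * (H : ℝ) ^ (6 + k * (m + 1)) := by ring
      _ ≤ η / 8 * (H : ℝ) ^ (6 + k * (m + 1)) := mul_le_mul_of_nonneg_right k5 hpos.le)
  have s3 : ((((m + 1) * 3 ^ (m + 6) * H ^ (5 + k * (m + 1)) : ℕ)) : ℝ) ≤ η / 8 * (H : ℝ) ^ (6 + k * (m + 1)) := by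
    have t1 : ((((m + 1) * 3 ^ (m + 6) : ℕ)) : ℝ) ≤ η / 8 * H := by
      have t2 : (((m + 1) * 3 ^ (m + 6) : ℕ) / (η / 8) : ℝ) ≤ H := h4.trans (by exact_mod_cast a4)
      rw [div_le_iff₀ hη8] at t2
      rw [mul_comm (η / 8)]
      exact t2
    have t3 : (0 : ℝ) ≤ (H : ℝ) ^ (5 + k * (m + 1)) := by positivity
    calc ((((m + 1) * 3 ^ (m + 6) * H ^ (5 + k * (m + 1)) : ℕ)) : ℝ) =
        ((((m + 1) * 3 ^ (m + 6) : ℕ)) : ℝ) * (H : ℝ) ^ (5 + k * (m + 1)) := by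
          rw [Nat.cast_mul, Nat.cast_pow]
      _ ≤ η / 8 * H * (H : ℝ) ^ (5 + k * (m + 1)) := mul_le_mul_of_nonneg_right t1 t3
      _ = η / 8 * (H : ℝ) ^ (6 + k * (m + 1)) := by
          have e : 6 + k * (m + 1) = (5 + k * (m + 1)) + 1 := by omega
          rw [e, pow_succ]
          ring
  rw [H_nat H (fun z => SolT (fun i j => z.1 (i, j)) z.2)] at s1
  rw [H_nat H (fun z => RT (fun i j => z.1 (i, j)) z.2 = 0)] at s2
  rw [H_nat H (fun z => SolK2 ℝ (fun i j => z.1 (i, j)) z.2 ∧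
      ∀ (p : ℕ) [Fact p.Prime], SolK2 ℚ_[p] (fun i j => z.1 (i, j)) z.2)] at k1
  rw [H_nat H (fun z => (Squarefree (pol (fun j => ((z.1 (0, j) : ℤ) : ℚ)) * pol (fun j => ((z.1 (1, j) : ℤ) : ℚ)) *
            pol (fun i => ((z.2 i : ℤ) : ℚ))) ∧
          (pol (fun j => ((z.1 (0, j) : ℤ) : ℚ)) * pol (fun j => ((z.1 (1, j) : ℤ) : ℚ)) *
            pol (fun i => ((z.2 i : ℤ) : ℚ))).natDegree = m + 4) ∧
        SolK2 ℝ (fun i j => z.1 (i, j)) z.2 ∧ (∀ (p : ℕ) [Fact p.Prime], SolK2 ℚ_[p] (fun i j => z.1 (i, j)) z.2) ∧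
        ¬ SolK2 ℚ (fun i j => z.1 (i, j)) z.2)]
  have hsub : (((Hbx (Fin 2 × Fin 3) H) ×ˢ (Hbx (Fin (m + 1)) (H ^ k))).filter
      (fun z => SolK2 ℝ (fun i j => z.1 (i, j)) z.2 ∧
        ∀ (p : ℕ) [Fact p.Prime], SolK2 ℚ_[p] (fun i j => z.1 (i, j)) z.2)) ⊆
      (((Hbx (Fin 2 × Fin 3) H) ×ˢ (Hbx (Fin (m + 1)) (H ^ k))).filter
        (fun z => (Squarefree (pol (fun j => ((z.1 (0, j) : ℤ) : ℚ)) * pol (fun j => ((z.1 (1, j) : ℤ) : ℚ)) *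
            pol (fun i => ((z.2 i : ℤ) : ℚ))) ∧
          (pol (fun j => ((z.1 (0, j) : ℤ) : ℚ)) * pol (fun j => ((z.1 (1, j) : ℤ) : ℚ)) *
            pol (fun i => ((z.2 i : ℤ) : ℚ))).natDegree = m + 4) ∧
        SolK2 ℝ (fun i j => z.1 (i, j)) z.2 ∧ (∀ (p : ℕ) [Fact p.Prime], SolK2 ℚ_[p] (fun i j => z.1 (i, j)) z.2) ∧
        ¬ SolK2 ℚ (fun i j => z.1 (i, j)) z.2)) ∪
      (((Hbx (Fin 2 × Fin 3) H) ×ˢ (Hbx (Fin (m + 1)) (H ^ k))).filter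
        (fun z => SolT (fun i j => z.1 (i, j)) z.2)) ∪
      (((Hbx (Fin 2 × Fin 3) H) ×ˢ (Hbx (Fin (m + 1)) (H ^ k))).filter
        (fun z => RT (fun i j => z.1 (i, j)) z.2 = 0)) ∪
      (((Hbx (Fin 2 × Fin 3) H) ×ˢ (Hbx (Fin (m + 1)) (H ^ k))).filter
        (fun z => z.2 (Fin.last m) = 0 ∨
        (z.2 (Fin.last m) ≠ 0 ∧ ¬ Squarefree (pol (fun i => ((z.2 i : ℤ) : ℚ)))))) := by
    intro z hz
    obtain ⟨hb, hz1, hz2⟩ := Finset.mem_filter.1 hz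
    by_cases p1 : SolT (fun i j => z.1 (i, j)) z.2
    · exact Finset.mem_union_left _ (Finset.mem_union_left _ (Finset.mem_union_right _ (Finset.mem_filter.2 ⟨hb, p1⟩)))
    by_cases p2 : RT (fun i j => z.1 (i, j)) z.2 = 0
    · exact Finset.mem_union_left _ (Finset.mem_union_right _ (Finset.mem_filter.2 ⟨hb, p2⟩))
    by_cases p3 : z.2 (Fin.last m) = 0 ∨
        (z.2 (Fin.last m) ≠ 0 ∧ ¬ Squarefree (pol (fun i => ((z.2 i : ℤ) : ℚ))))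
    · exact Finset.mem_union_right _ (Finset.mem_filter.2 ⟨hb, p3⟩)
    refine Finset.mem_union_left _ (Finset.mem_union_left _ (Finset.mem_union_left _ (Finset.mem_filter.2 ⟨hb, ?_⟩)))
    rw [not_or, not_and, not_not] at p3
    exact ⟨sqf_prod2 (fun i j => z.1 (i, j)) z.2 p2 p3.1 (p3.2 p3.1), hz1, hz2, fun h => p1 (hS _ _ h)⟩
  have hcard := (Finset.card_le_card hsub).trans ((Finset.card_union_le _ _).trans (Nat.add_le_add
    ((Finset.card_union_le _ _).trans (Nat.add_le_add (Finset.card_union_le _ _) le_rfl)) k6))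
  have hcardR := (Nat.cast_le (α := ℝ)).2 hcard
  rw [Nat.cast_add, Nat.cast_add, Nat.cast_add] at hcardR
  linarith

end HE
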